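import Pool.Agent.MP_fcd29e_an.H81.Spec

/-! The Bochner–Martinelli formula. -/

set_option autoImplicit false

namespace Pool.Agent.MP_fcd29e_an.H67

open Pool.Agent.MP_fcd29e_an.H81 MeasureTheory Complex Set Filter Topology Metric
open scoped ContDiff ComplexConjugate ENNReal NNReal Convolution

noncomputable section

variable {N : ℕ}

theorem tst_fd {ψ : E N → ℂ} (h : Tst ψ) (v : E N) : Tst fun y => fderiv ℝ ψ y v :=
  ⟨contDiff_iff_contDiffAt.2 fun _ => contDiffAt_fderiv_apply h.1.contDiffAt v,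
    h.2.fderiv_apply ℝ v⟩

theorem tst_comb {f g : E N → ℂ} (hf : Tst f) (hg : Tst g) (c : ℂ) :
    Tst fun y => (f y + c * g y) / 2 := by
  refine ⟨(hf.1.add (contDiff_const.mul hg.1)).div_const 2, ?_⟩
  have h1 : HasCompactSupport fun y => f y + c * g y := hf.2.add hg.2.mul_left
  exact h1.mono fun y hy h0 => hy (by simp only [h0, zero_div])

theorem tst_dzb {ψ : E N → ℂ} (h : Tst ψ) (j : Fin N) : Tst (dzb j ψ) :=
  tst_comb (tst_fd h _) (tst_fd h _) I

theorem conv_int {k : E N → ℂ} (hk : LocallyIntegrable k) {φ : E N → ℂ} (h1 : Continuous φ)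
    (h2 : HasCompactSupport φ) (x : E N) : Integrable fun y => k (x - y) * φ y :=
  (h2.convolutionExists_right (ContinuousLinearMap.mul ℝ ℂ) hk h1 x).integrable_swap

theorem conv_eq (k φ : E N → ℂ) :
    (fun x => ∫ y, k (x - y) * φ y) = k ⋆[ContinuousLinearMap.mul ℝ ℂ, volume] φ := by
  funext x; rw [convolution_eq_swap]; rfl

theorem conv_smooth {k : E N → ℂ} (hk : LocallyIntegrable k) {φ : E N → ℂ} (h : Tst φ) :
    ContDiff ℝ ∞ fun x => ∫ y, k (x - y) * φ y := by
  rw [conv_eq]; exact h.2.contDiff_convolution_right _ hk h.1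

theorem conv_fderiv {k : E N → ℂ} (hk : LocallyIntegrable k) {φ : E N → ℂ} (h : Tst φ)
    (x v : E N) : fderiv ℝ (fun x => ∫ y, k (x - y) * φ y) x v =
      ∫ y, k (x - y) * fderiv ℝ φ y v := by
  have h1 : ContDiff ℝ 1 φ := h.1.of_le (by exact_mod_cast le_top)
  rw [conv_eq, (h.2.hasFDerivAt_convolution_right _ hk h1 x).fderiv,
    convolution_precompR_apply _ hk (h.2.fderiv ℝ) (h1.continuous_fderiv one_ne_zero),
    convolution_eq_swap]
  rfl

theorem conv_comb {k : E N → ℂ} (hk : LocallyIntegrable k) {f g : E N → ℂ} (hf : Tst f) (hg : Tst g)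
    (c : ℂ) (x : E N) : ∫ y, k (x - y) * ((f y + c * g y) / 2) =
      ((∫ y, k (x - y) * f y) + c * ∫ y, k (x - y) * g y) / 2 := by
  rw [← integral_const_mul, ← integral_add (conv_int hk hf.1.continuous hf.2 x)
    ((conv_int hk hg.1.continuous hg.2 x).const_mul c), ← integral_div]
  exact integral_congr_ae (Eventually.of_forall fun y => by ring)

/-- decay of the convolution with a kernel of the size of the Bochner–Martinelli kernel -/
theorem conv_decay {k : E N → ℂ} (hk : LocallyIntegrable k) {c : ℝ} {d : ℕ} (hc : 0 ≤ c)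
    (hb : ∀ y, ‖k y‖ ≤ c / ‖y‖ ^ d) {φ : E N → ℝ} (h1 : Continuous φ) (h2 : HasCompactSupport φ)
    (h0 : ∀ y, 0 ≤ φ y) : (∀ x, Integrable fun y => ‖k (x - y)‖ * φ y) ∧
      ∃ C : ℝ, ∀ x, ∫ y, ‖k (x - y)‖ * φ y ≤ C / (1 + ‖x‖) ^ d := by
  have hk' : LocallyIntegrable fun y => ‖k y‖ := fun x => (hk x).norm
  have hi : ∀ x, Integrable fun y => ‖k (x - y)‖ * φ y := fun x =>
    (h2.convolutionExists_right (ContinuousLinearMap.mul ℝ ℝ) hk' h1 x).integrable_swap
  refine ⟨hi, ?_⟩
  have hc' : Continuous fun x => ∫ y, ‖k (x - y)‖ * φ y := by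
    have := h2.continuous_convolution_right (ContinuousLinearMap.mul ℝ ℝ) hk' h1
    refine this.congr fun x => ?_
    rw [convolution_eq_swap]; rfl
  obtain ⟨R, hR0, hR⟩ := h2.isCompact.isBounded.subset_closedBall_lt 0 (0 : E N)
  obtain ⟨B, hB⟩ := (isCompact_closedBall (0 : E N) (2 * R + 1)).exists_bound_of_continuousOn
    hc'.continuousOn
  have hφ : Integrable φ := h1.integrable_of_hasCompactSupport h2
  have hI : 0 ≤ ∫ y, φ y := integral_nonneg h0
  refine ⟨max B 0 * (2 * R + 2) ^ d + c * 2 ^ d * ∫ y, φ y, fun x => ?_⟩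
  have hx : 0 < (1 + ‖x‖) ^ d := by positivity
  rcases le_total ‖x‖ (2 * R + 1) with h | h
  · rw [le_div_iff₀ hx]
    have a1 := (le_abs_self _).trans (hB x (mem_closedBall_zero_iff.2 h))
    have a2 : (1 + ‖x‖) ^ d ≤ (2 * R + 2) ^ d := pow_le_pow_left₀ (by positivity) (by linarith) d
    have a3 := mul_le_mul (a1.trans (le_max_left B 0)) a2 hx.le (le_max_right _ _)
    have a4 : 0 ≤ c * 2 ^ d * ∫ y, φ y := by positivity
    linarith
  · have a1 : ∫ y, ‖k (x - y)‖ * φ y ≤ ∫ y, c * 2 ^ d / (1 + ‖x‖) ^ d * φ y := by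
      refine integral_mono (hi x) (hφ.const_mul _) fun y => ?_
      by_cases hy : φ y = 0
      · simp only [hy, mul_zero, le_refl]
      refine mul_le_mul_of_nonneg_right ((hb _).trans ?_) (h0 y)
      have b1 : ‖y‖ ≤ R := mem_closedBall_zero_iff.1 (hR (subset_tsupport _ hy))
      have b2 : (1 + ‖x‖) / 2 ≤ ‖x - y‖ := by linarith [norm_sub_norm_le x y]
      have b3 : c * 2 ^ d / (1 + ‖x‖) ^ d = c / ((1 + ‖x‖) / 2) ^ d := by
        rw [div_pow]; field_simp
      rw [b3]
      exact div_le_div_of_nonneg_left hc (by positivity) (pow_le_pow_left₀ (by positivity) b2 d)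
    rw [integral_const_mul] at a1
    refine a1.trans ?_
    rw [div_mul_eq_mul_div]
    refine div_le_div_of_nonneg_right ?_ hx.le
    have : 0 ≤ max B 0 * (2 * R + 2) ^ d := by positivity
    linarith

theorem ibp_fd {Φ ψ : E N → ℂ} (hΦ : ContDiff ℝ ∞ Φ) (h : Tst ψ) (x v : E N) :
    ∫ y, Φ (x - y) * fderiv ℝ ψ y v = ∫ y, fderiv ℝ Φ (x - y) v * ψ y := by
  have hd : Differentiable ℝ Φ := hΦ.differentiable (by simp)
  have hF : ∀ y, HasFDerivAt (fun y => Φ (x - y)) (-fderiv ℝ Φ (x - y)) y := fun y => by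
    have := (hd (x - y)).hasFDerivAt.comp y ((hasFDerivAt_id y).const_sub x)
    have e : -fderiv ℝ Φ (x - y) = fderiv ℝ Φ (x - y) ∘SL (-ContinuousLinearMap.id ℝ (E N)) := by
      ext w; simp
    rw [e]; exact this
  have hc : Continuous fun y => fderiv ℝ Φ y v :=
    (contDiff_iff_contDiffAt.2 fun _ => contDiffAt_fderiv_apply hΦ.contDiffAt v).continuous
  have e : ∀ y, fderiv ℝ (fun y => Φ (x - y)) y v = -fderiv ℝ Φ (x - y) v := fun y => by
    rw [(hF y).fderiv]; rfl
  have i1 := conv_int hc.locallyIntegrable h.1.continuous h.2 x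
  rw [integral_mul_fderiv_eq_neg_fderiv_mul_of_integrable (f := fun y => Φ (x - y))
    (by simp only [e, neg_mul]; exact i1.neg)
    (conv_int hΦ.continuous.locallyIntegrable (tst_fd h v).1.continuous (tst_fd h v).2 x)
    (conv_int hΦ.continuous.locallyIntegrable h.1.continuous h.2 x)
    (fun y _ => (hF y).differentiableAt) (fun y _ => h.1.differentiable (by simp) y)]
  simp only [e, neg_mul, integral_neg, neg_neg]

theorem ibp_dzb {Φ ψ : E N → ℂ} (hΦ : ContDiff ℝ ∞ Φ) (h : Tst ψ) (x : E N) (j : Fin N) :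
    ∫ y, Φ (x - y) * dzb j ψ y = ∫ y, dzb j Φ (x - y) * ψ y := by
  have hc : ∀ v, Continuous fun y => fderiv ℝ Φ y v := fun v =>
    (contDiff_iff_contDiffAt.2 fun _ => contDiffAt_fderiv_apply hΦ.contDiffAt v).continuous
  unfold dzb
  rw [conv_comb hΦ.continuous.locallyIntegrable (tst_fd h _) (tst_fd h _), ibp_fd hΦ h, ibp_fd hΦ h,
    ← integral_const_mul, ← integral_add (conv_int (hc _).locallyIntegrable h.1.continuous h.2 x)
      ((conv_int (hc _).locallyIntegrable h.1.continuous h.2 x).const_mul I), ← integral_div]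
  exact integral_congr_ae (Eventually.of_forall fun y => by ring)

/-- splitting of the kernel at the scale `r` -/
theorem split_r (hb : StmtBM1) (hN : 1 ≤ N) {ψ : E N → ℂ} (h : Tst ψ) (x : E N) {r : ℝ} (hr : 0 < r) :
    ∑ j, Ec j (dzb j ψ) x = Mo r ψ x + ∑ j, ∫ y, kk j r (x - y) * dzb j ψ y := by
  obtain ⟨-, h1, -, -⟩ := hb N hN
  have hs : ∀ j, ContDiff ℝ ∞ (Phi j r : E N → ℂ) := fun j => ((h1 j).2.2.2.2.2 r hr).1
  have hk : ∀ j, Integrable (kk j r : E N → ℂ) := fun j => ((h1 j).2.2.2.2.2 r hr).2.1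
  have e1 : Mo r ψ x = ∑ j, ∫ y, Phi j r (x - y) * dzb j ψ y := by
    unfold Mo H81.eta
    simp only [Finset.sum_mul]
    rw [integral_finsetSum _ fun j _ => conv_int
      (contDiff_iff_contDiffAt.2 fun _ => contDiffAt_dzb j (hs j).contDiffAt).continuous.locallyIntegrable
      h.1.continuous h.2 x]
    exact Finset.sum_congr rfl fun j _ => (ibp_dzb (hs j) h x j).symm
  rw [e1, ← Finset.sum_add_distrib]
  refine Finset.sum_congr rfl fun j _ => ?_
  have t := tst_dzb h j
  rw [← integral_add (conv_int (hs j).continuous.locallyIntegrable t.1.continuous t.2 x)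
    (conv_int (hk j).locallyIntegrable t.1.continuous t.2 x)]
  exact integral_congr_ae (Eventually.of_forall fun y => by simp only [kk]; ring)

theorem mo_lim (hb : StmtBM1) (hN : 1 ≤ N) {ψ : E N → ℂ} (h : Tst ψ) (x : E N) :
    Tendsto (fun r => Mo r ψ x) (𝓝[>] 0) (𝓝 (ψ x)) := by
  obtain ⟨-, -, h2, -⟩ := hb N hN
  rw [Metric.tendsto_nhdsWithin_nhds]
  intro ε hε
  obtain ⟨δ, hδ, hd⟩ := Metric.continuousAt_iff.1 (h.1.continuous.continuousAt (x := x)) (ε / 2)
    (by positivity)
  refine ⟨δ / 2, by positivity, fun r hr hrδ => ?_⟩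
  have hr0 : 0 < r := hr
  rw [Real.dist_eq, sub_zero, abs_of_pos hr0] at hrδ
  obtain ⟨t, i1, p⟩ := h2 r hr0
  have ie : Integrable fun y => eta r (x - y) :=
    (t.1.continuous.integrable_of_hasCompactSupport t.2).comp_sub_left x
  have i2 : ∫ y, eta r (x - y) = 1 := by rw [integral_sub_left_eq_self (eta r) volume x, i1]
  have n1 : ∀ y : E N, ‖eta r y‖ = (eta r y).re := fun y => by
    have : eta r y = ((eta r y).re : ℂ) := Complex.ext rfl (by rw [(p y).2.1]; rfl)
    rw [this, Complex.norm_real, Real.norm_of_nonneg (p y).1]; rfl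
  have i3 : ∫ y, ‖eta r (x - y)‖ = 1 := by
    simp only [n1]
    have := integral_re ie
    simp only [RCLike.re_to_complex] at this
    rw [this, i2]; rfl
  have e : Mo r ψ x - ψ x = ∫ y, eta r (x - y) * (ψ y - ψ x) := by
    simp only [mul_sub]
    rw [integral_sub (conv_int t.1.continuous.locallyIntegrable h.1.continuous h.2 x) (ie.mul_const _),
      integral_mul_const, i2, one_mul]
    rfl
  rw [dist_eq_norm, e]
  refine lt_of_le_of_lt (norm_integral_le_of_norm_le (ie.norm.mul_const (ε / 2))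
    (Eventually.of_forall fun y => ?_)) ?_
  · rw [norm_mul]
    rcases le_or_gt (2 * r) ‖x - y‖ with a | a
    · rw [(p _).2.2.1 a, norm_zero, zero_mul, zero_mul]
    · refine mul_le_mul_of_nonneg_left ?_ (norm_nonneg _)
      rw [← dist_eq_norm]
      exact (hd (by rw [dist_comm, dist_eq_norm]; linarith)).le
  · rw [integral_mul_const, i3]; linarith

theorem kk_lim (hb : StmtBM1) (hN : 1 ≤ N) {φ : E N → ℂ} (h : Tst φ) (x : E N) (j : Fin N) :
    Tendsto (fun r => ∫ y, kk j r (x - y) * φ y) (𝓝[>] 0) (𝓝 0) := by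
  obtain ⟨-, h1, -, -⟩ := hb N hN
  obtain ⟨-, l, -, -, -, p⟩ := h1 j
  have : Nontrivial (E N) := by
    have : Nonempty (Fin N) := ⟨j⟩
    infer_instance
  have i1 := conv_int l h.1.continuous h.2 x
  have := tendsto_integral_filter_of_dominated_convergence (l := 𝓝[>] (0 : ℝ)) (μ := volume)
    (F := fun r y => kk j r (x - y) * φ y) (f := fun _ => 0) (fun y => 2 * ‖Ek j (x - y) * φ y‖)
    (eventually_nhdsWithin_of_forall fun r hr =>
      (conv_int (p r hr).2.1.locallyIntegrable h.1.continuous h.2 x).1)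
    (eventually_nhdsWithin_of_forall fun r hr => Eventually.of_forall fun y => by
      rw [norm_mul, norm_mul, ← mul_assoc]
      refine mul_le_mul_of_nonneg_right ((norm_sub_le _ _).trans ?_) (norm_nonneg _)
      linarith [((p r hr).2.2 (x - y)).2.2.1])
    (i1.norm.const_mul 2) (by
      filter_upwards [(countable_singleton x).ae_notMem volume] with y hy
      have hxy : 0 < ‖x - y‖ := norm_pos_iff.2 (sub_ne_zero.2 fun e => hy e.symm)
      refine tendsto_const_nhds.congr' ?_
      filter_upwards [Ioo_mem_nhdsGT (show (0 : ℝ) < ‖x - y‖ / 2 by positivity)] with r hr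
      rw [(((p r hr.1).2.2 (x - y)).2.1 (by linarith [hr.2])).2, zero_mul])
  simpa using this

theorem bm (hb : StmtBM1) (hN : 1 ≤ N) {ψ : E N → ℂ} (h : Tst ψ) (x : E N) :
    ∑ j, Ec j (dzb j ψ) x = ψ x := by
  have a := (mo_lim hb hN h x).add
    (tendsto_finsetSum Finset.univ fun j _ => kk_lim hb hN (tst_dzb h j) x j)
  rw [Finset.sum_const_zero, add_zero] at a
  refine tendsto_nhds_unique tendsto_const_nhds (a.congr' ?_)
  exact eventually_nhdsWithin_of_forall fun r hr => (split_r hb hN h x hr).symm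

theorem bm_loc (hb : StmtBM1) (hN : 1 ≤ N) {U : Set (E N)} {w : E N → ℂ} {x : E N} {r : ℝ}
    (hU : IsOpen U) (hw : ContDiffOn ℝ ∞ w U) (hr : 0 < r) (hx : closedBall x (2 * r) ⊆ U) :
    w x = Mo r w x + ∑ j, ∫ y, kk j r (x - y) * dzb j w y := by
  obtain ⟨δ, hδ, hs⟩ := (isCompact_closedBall x (2 * r)).exists_cthickening_subset_open hU hx
  rw [cthickening_closedBall hδ.le (by positivity)] at hs
  let χ : ContDiffBump x := ⟨2 * r + δ / 2, δ + 2 * r, by positivity, by linarith⟩
  have t : Tst fun y => (χ y : ℂ) * w y := by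
    have c1 : ContDiff ℝ ∞ fun y => (χ y : ℂ) := ofRealCLM.contDiff.comp χ.contDiff
    refine ⟨contDiff_iff_contDiffAt.2 fun y => ?_, ?_⟩
    · by_cases hy : y ∈ U
      · exact c1.contDiffAt.mul (hw.contDiffAt (hU.mem_nhds hy))
      · have : y ∉ tsupport χ := by rw [χ.tsupport_eq]; exact fun a => hy (hs a)
        refine (contDiffAt_const (c := (0 : ℂ))).congr_of_eventuallyEq ?_
        filter_upwards [notMem_tsupport_iff_eventuallyEq.1 this] with z hz
        rw [hz]; simp
    · exact χ.hasCompactSupport.mono fun y hy h0 => hy (by simp only [h0, ofReal_zero, zero_mul])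
  have ev : ∀ y, ‖x - y‖ < 2 * r → (fun y => (χ y : ℂ) * w y) =ᶠ[𝓝 y] w := fun y hy => by
    have : y ∈ ball x (2 * r + δ / 2) := by rw [mem_ball, dist_comm, dist_eq_norm]; linarith
    filter_upwards [isOpen_ball.mem_nhds this] with z hz
    rw [χ.one_of_mem_closedBall (ball_subset_closedBall hz)]; simp
  obtain ⟨-, h1, h2, -⟩ := hb N hN
  have a := (bm hb hN t x).symm.trans (split_r hb hN t x hr)
  rw [(ev x (by simpa using hr)).eq_of_nhds] at a
  rw [a]
  congr 1
  · refine integral_congr_ae (Eventually.of_forall fun y => ?_)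
    rcases le_or_gt (2 * r) ‖x - y‖ with b | b
    · simp only [((h2 r hr).2.2 _).2.2.1 b, zero_mul]
    · simp only [(ev y b).eq_of_nhds]
  · refine Finset.sum_congr rfl fun j _ => integral_congr_ae (Eventually.of_forall fun y => ?_)
    rcases le_or_gt (2 * r) ‖x - y‖ with b | b
    · simp only [((((h1 j).2.2.2.2.2 r hr).2.2 _).2.1 b).2, zero_mul]
    · simp only [dzb_congr (ev y b)]

theorem di_prod (hb : StmtBM1) (hN : 1 ≤ N) {g : E N → ℂ} (hg : DI g) (j : Fin N) {φ : E N → ℂ}
    (h1 : Continuous φ) (h2 : HasCompactSupport φ) :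
    Integrable (fun p : E N × E N => Ek j (p.1 - p.2) * g p.2 * φ p.1) (volume.prod volume) := by
  obtain ⟨c0, h, -, -⟩ := hb N hN
  obtain ⟨m, l, -, p, -⟩ := h j
  have hp : ∀ y : E N, (0 : ℝ) < (1 + ‖y‖) ^ (2 * N - 1) := fun y => by positivity
  have mg : AEStronglyMeasurable g volume := by
    have c : Continuous fun y : E N => (((1 + ‖y‖) ^ (2 * N - 1) : ℝ) : ℂ) := by fun_prop
    refine (hg.1.mul c.aestronglyMeasurable).congr (Eventually.of_forall fun y => ?_)
    exact div_mul_cancel₀ _ (ofReal_ne_zero.2 (hp y).ne')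
  have e : ∀ x y : E N, Ek j (x - y) = -Ek j (y - x) := fun x y => by
    rw [← (p (y - x)).1, neg_sub]
  obtain ⟨-, C, hC⟩ := conv_decay l c0.le (fun y => (p y).2.1) h1.norm h2.norm fun _ => norm_nonneg _
  have ms : AEStronglyMeasurable (fun p : E N × E N => Ek j (p.1 - p.2) * g p.2 * φ p.1)
      (volume.prod volume) :=
    ((m.comp (measurable_fst.sub measurable_snd)).aestronglyMeasurable.mul mg.comp_snd).mul
      (h1.comp continuous_fst).aestronglyMeasurable
  rw [integrable_prod_iff' ms]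
  refine ⟨Eventually.of_forall fun y => ?_, ?_⟩
  · refine ((conv_int l h1 h2 y).const_mul (-g y)).congr (Eventually.of_forall fun x => ?_)
    simp only [e x y]; ring
  · refine (hg.norm.const_mul C).mono' ms.norm.prod_swap.integral_prod_right'
      (Eventually.of_forall fun y => ?_)
    rw [Real.norm_of_nonneg (integral_nonneg fun _ => norm_nonneg _)]
    have : ∫ x, ‖Ek j (x - y) * g y * φ x‖ = ‖g y‖ * ∫ x, ‖Ek j (y - x)‖ * ‖φ x‖ := by
      rw [← integral_const_mul]
      refine integral_congr_ae (Eventually.of_forall fun x => ?_)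
      simp only [e x y, norm_mul, norm_neg]; ring
    rw [this, norm_div, Complex.norm_real, Real.norm_of_nonneg (hp y).le]
    refine (mul_le_mul_of_nonneg_left (hC y) (norm_nonneg _)).trans (le_of_eq ?_)
    ring

theorem bump_ex (R : ℝ) (hR : 0 < R) : ∃ φ : E N → ℂ, Continuous φ ∧ HasCompactSupport φ ∧
    ∀ x ∈ ball (0 : E N) R, φ x = 1 := by
  let χ : ContDiffBump (0 : E N) := ⟨R, R + 1, hR, by linarith⟩
  refine ⟨fun y => (χ y : ℂ), continuous_ofReal.comp χ.continuous,
    χ.hasCompactSupport.mono fun y hy h0 => hy (by simp only [h0, ofReal_zero]), fun x hx => ?_⟩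
  show ((χ x : ℝ) : ℂ) = 1
  rw [χ.one_of_mem_closedBall (ball_subset_closedBall hx)]; rfl

theorem bm2 (_h0 : StmtT0) (_h1 : StmtT1) (hb : StmtBM1) : StmtBM2 := by
  intro N hN
  obtain ⟨c0, h, -, -⟩ := hb N hN
  refine ⟨fun ψ t => ⟨bm hb hN t, fun j => ?_⟩, fun U w x r hU hw hr hx => bm_loc hb hN hU hw hr hx,
    fun g hg j => ⟨?_, ?_, fun ψ t => ?_⟩⟩
  · obtain ⟨m, l, -, p, -⟩ := h j
    have fd : ∀ x v, fderiv ℝ (Ec j ψ) x v = Ec j (fun y => fderiv ℝ ψ y v) x := conv_fderiv l t
    refine ⟨conv_smooth l t, conv_int l t.1.continuous t.2, fd, fun i => ⟨?_, ?_⟩, ?_⟩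
    · funext x
      have := conv_comb l (tst_fd t (ee i)) (tst_fd t (I • ee i)) (-I) x
      simp only [neg_mul, ← sub_eq_add_neg] at this
      rw [dz, fd, fd]; exact this.symm
    · funext x
      rw [dzb, fd, fd]; exact (conv_comb l (tst_fd t (ee i)) (tst_fd t (I • ee i)) I x).symm
    · have c1 : Continuous (fderiv ℝ ψ) := t.1.continuous_fderiv (by simp)
      obtain ⟨i1, C, hC⟩ := conv_decay l c0.le (fun y => (p y).2.1)
        (φ := fun y => ‖ψ y‖ + ‖fderiv ℝ ψ y‖) (t.1.continuous.norm.add c1.norm)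
        (t.2.norm.add (t.2.fderiv ℝ).norm) fun _ => by positivity
      refine ⟨C, fun x => ⟨le_trans (norm_integral_le_of_norm_le (i1 x)
        (Eventually.of_forall fun y => ?_)) (hC x), le_trans (ContinuousLinearMap.opNorm_le_bound _
          (integral_nonneg fun y => by positivity) fun v => ?_) (hC x)⟩⟩
      · rw [norm_mul]
        exact mul_le_mul_of_nonneg_left (le_add_of_nonneg_right (norm_nonneg _)) (norm_nonneg _)
      · rw [fd, ← integral_mul_const]
        refine norm_integral_le_of_norm_le ((i1 x).mul_const _) (Eventually.of_forall fun y => ?_)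
        rw [norm_mul, mul_assoc]
        refine mul_le_mul_of_nonneg_left (((fderiv ℝ ψ y).le_opNorm v).trans ?_) (norm_nonneg _)
        exact mul_le_mul_of_nonneg_right (le_add_of_nonneg_left (norm_nonneg _)) (norm_nonneg _)
  · have : ∀ n : ℕ, ∀ᵐ x : E N, x ∈ ball (0 : E N) (n + 1) → Integrable fun y => Ek j (x - y) * g y := by
      intro n
      obtain ⟨φ, a1, a2, a3⟩ := bump_ex (N := N) (n + 1) (by positivity)
      filter_upwards [(di_prod hb hN hg j a1 a2).prod_right_ae] with x hx hb'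
      simpa only [a3 x hb', mul_one] using hx
    filter_upwards [ae_all_iff.2 this] with x hx
    obtain ⟨n, hn⟩ := exists_nat_gt ‖x‖
    exact hx n (mem_ball_zero_iff.2 (by linarith))
  · intro x
    obtain ⟨φ, a1, a2, a3⟩ := bump_ex (N := N) (‖x‖ + 1) (by positivity)
    refine ⟨ball 0 (‖x‖ + 1), isOpen_ball.mem_nhds (mem_ball_zero_iff.2 (by linarith)), ?_⟩
    refine ((di_prod hb hN hg j a1 a2).integral_prod_left.integrableOn).congr_fun (fun z hz => ?_)
      measurableSet_ball
    simp only [a3 z hz, mul_one]; rfl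
  · obtain ⟨-, -, -, p, -⟩ := h j
    have e : ∀ x y : E N, Ek j (x - y) = -Ek j (y - x) := fun x y => by
      rw [← (p (y - x)).1, neg_sub]
    have i := di_prod hb hN hg j t.1.continuous t.2
    have e2 : ∀ y, ∫ x, Ek j (x - y) * g y * ψ x = -(g y * Ec j ψ y) := fun y => by
      rw [Ec, ← integral_const_mul, ← integral_neg]
      refine integral_congr_ae (Eventually.of_forall fun x => ?_)
      simp only [e x y]; ring
    refine ⟨?_, ?_⟩
    · have := i.integral_prod_right
      simp only [e2] at this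
      exact this.neg.congr (Eventually.of_forall fun y => neg_neg _)
    · have := integral_integral_swap (f := fun x y => Ek j (x - y) * g y * ψ x) i
      simp only [e2, integral_neg, integral_mul_const] at this
      exact this

end

end Pool.Agent.MP_fcd29e_an.H67
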