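import Pool.Agent.MP_fcd29e_an.H81.Spec

/-!
Line bundles, top degree.
-/

set_option autoImplicit false

open MeasureTheory Complex Set Filter Topology Metric
open scoped ContDiff ComplexConjugate ENNReal NNReal

namespace Pool.Agent.MP_fcd29e_an.H67

open Pool.Agent.MP_fcd29e_an.H81

noncomputable section

variable {N : ℕ}

/-! ### Homogeneity -/

theorem hom_mul {U : Set (E N)} {a b a' b' a'' b'' : ℤ} {f g : E N → ℂ} (hf : Hom U a b f)
    (hg : Hom U a' b' g) (ha : a'' = a + a') (hb : b'' = b + b') :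
    Hom U a'' b'' fun z => f z * g z := by
  intro c hc z hz
  have hc' : conj c ≠ 0 := by simpa using hc
  simp only [hf c hc z hz, hg c hc z hz, ha, hb, zpow_add₀ hc, zpow_add₀ hc']
  ring

theorem hom_const {U : Set (E N)} (s : ℂ) : Hom U 0 0 fun _ => s := by
  intro c _ z _
  simp

theorem hom_sum {U : Set (E N)} {a b : ℤ} {ι : Type*} (s : Finset ι) {F : ι → E N → ℂ}
    (h : ∀ i ∈ s, Hom U a b (F i)) : Hom U a b fun z => ∑ i ∈ s, F i z := by
  intro c hc z hz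
  simp only [Finset.mul_sum]
  exact Finset.sum_congr rfl fun i hi => h i hi c hc z hz

theorem hom_sub {U : Set (E N)} {a b : ℤ} {f g : E N → ℂ} (hf : Hom U a b f) (hg : Hom U a b g) :
    Hom U a b fun z => f z - g z := by
  intro c hc z hz
  simp only [hf c hc z hz, hg c hc z hz]
  ring

theorem hom_coord {U : Set (E N)} (j : Fin N) : Hom U 1 0 fun z => z j := by
  intro c _ z _
  simp

theorem hom_conj {U : Set (E N)} (j : Fin N) : Hom U 0 1 fun z => conj (z j) := by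
  intro c _ z _
  simp

theorem normSq_smul (c : ℂ) (z : E N) :
    ((‖c • z‖ ^ 2 : ℝ) : ℂ) = c * conj c * ((‖z‖ ^ 2 : ℝ) : ℂ) := by
  rw [norm_smul, Complex.mul_conj, Complex.normSq_eq_norm_sq]
  push_cast
  ring

theorem hom_inv {U : Set (E N)} : Hom U (-1) (-1) fun z : E N => ((‖z‖ ^ 2 : ℝ) : ℂ)⁻¹ := by
  intro c _ z _
  simp only [normSq_smul, mul_inv, zpow_neg, zpow_one]

theorem hom_pow {U : Set (E N)} {a b : ℤ} {f : E N → ℂ} (hf : Hom U a b f) (n : ℕ) :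
    Hom U (n * a) (n * b) fun z => f z ^ n := by
  induction n with
  | zero => simpa using hom_const (U := U) 1
  | succ n ih =>
    have := hom_mul ih hf (a'' := (n + 1 : ℕ) * a) (b'' := (n + 1 : ℕ) * b) (by push_cast; ring)
      (by push_cast; ring)
    simpa only [pow_succ] using this

theorem hom_thb {U : Set (E N)} (j : Fin N) : Hom U 0 (-1) (thb j) := by
  have := hom_mul (hom_coord (U := U) j) hom_inv (a'' := 0) (b'' := -1) (by norm_num) (by norm_num)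
  exact this

theorem hom_wd {U : Set (E N)} {q : ℕ} {a b a' b' a'' b'' : ℤ} {γ : Fin N → E N → ℂ}
    {f : Arr N q} (hγ : ∀ j, Hom U a b (γ j)) (hf : ∀ J, Hom U a' b' (f J)) (ha : a'' = a + a')
    (hb : b'' = b + b') (J : Fin (q + 1) → Fin N) : Hom U a'' b'' (wd γ f J) := by
  unfold wd wdA
  refine hom_sum Finset.univ fun i _ => ?_
  exact hom_mul (hom_mul (hom_const _) (hγ _) (zero_add a).symm (zero_add b).symm) (hf _) ha hb

theorem hom_ib {U : Set (E N)} {q : ℕ} {a b b' : ℤ} {f : Arr N (q + 1)}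
    (hf : ∀ J, Hom U a b (f J)) (hb : b' = 1 + b) (J : Fin q → Fin N) : Hom U a b' (ib f J) := by
  unfold ib ibA
  refine hom_sum Finset.univ fun i _ => ?_
  exact hom_mul (hom_conj _) (hf _) (zero_add a).symm hb

/-! ### Smoothness -/

theorem normSq_ne {z : E N} (hz : z ∈ E0 N) : ((‖z‖ ^ 2 : ℝ) : ℂ) ≠ 0 := by
  have : z ≠ 0 := hz
  simpa using this

theorem smooth_normSq : ContDiff ℝ ∞ fun z : E N => ((‖z‖ ^ 2 : ℝ) : ℂ) :=
  ofRealCLM.contDiff.comp (contDiff_norm_sq ℝ)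

theorem smooth_inv : ContDiffOn ℝ ∞ (fun z : E N => ((‖z‖ ^ 2 : ℝ) : ℂ)⁻¹) (E0 N) :=
  smooth_normSq.contDiffOn.inv fun _ hz => normSq_ne hz

theorem smooth_conj (j : Fin N) : ContDiff ℝ ∞ fun z : E N => conj (z j) :=
  conjCLE.contDiff.comp (contDiff_coord j)

theorem smooth_thb (j : Fin N) : ContDiffOn ℝ ∞ (thb j) (E0 N) := by
  have := (contDiff_coord (n := ∞) j).contDiffOn.mul (smooth_inv (N := N))
  exact this

theorem sum_thb {z : E N} (hz : z ∈ E0 N) : ∑ l, conj (z l) * thb l z = 1 := by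
  have h := normSq_ne hz
  simp only [thb, ← mul_div_assoc, ← Finset.sum_div]
  rw [div_eq_one_iff_eq h, norm_sq_eq]
  exact Finset.sum_congr rfl fun l _ => mul_comm _ _

theorem zero_notMem_E0 : (0 : E N) ∉ E0 N := by simp

/-! ### Sobolev regularity -/

section sob
variable (S : StmtSB) {k : ℕ}
include S

theorem sob_l2 {f : E N → ℂ} (hf : Sob (E0 N) k f) : L2 (E0 N) f :=
  (((S N).1 _ isOpen_E0 zero_notMem_E0 k).1 f hf).1

theorem sob_mul {s f : E N → ℂ} (hs : ContDiffOn ℝ ∞ s (E0 N)) (hf : Sob (E0 N) k f) :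
    Sob (E0 N) k fun z => s z * f z :=
  (((S N).1 _ isOpen_E0 zero_notMem_E0 k).1 f hf).2.2.2.1 s hs

theorem sob_sub {f g : E N → ℂ} (hf : Sob (E0 N) k f) (hg : Sob (E0 N) k g) :
    Sob (E0 N) k fun z => f z - g z :=
  ((((S N).1 _ isOpen_E0 zero_notMem_E0 k).1 f hf).2.2.1 g hg).2

theorem sob_sum {ι : Type} (s : Finset ι) {F : ι → E N → ℂ} (h : ∀ i ∈ s, Sob (E0 N) k (F i)) :
    Sob (E0 N) k fun z => ∑ i ∈ s, F i z :=
  ((S N).1 _ isOpen_E0 zero_notMem_E0 k).2.1 ι s F h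

theorem sob_smooth {f : E N → ℂ} (hf : ContDiffOn ℝ ∞ f (E0 N)) : Sob (E0 N) k f :=
  ((S N).1 _ isOpen_E0 zero_notMem_E0 k).2.2.1 f hf

theorem sob_neg {f : E N → ℂ} (hf : Sob (E0 N) k f) : Sob (E0 N) k fun z => -f z := by
  simpa using sob_mul S (contDiffOn_const (c := (-1 : ℂ))) hf

theorem sob_wd {q : ℕ} {γ : Fin N → E N → ℂ} {f : Arr N q}
    (hγ : ∀ j, ContDiffOn ℝ ∞ (γ j) (E0 N)) (hf : ∀ J, Sob (E0 N) k (f J))
    (J : Fin (q + 1) → Fin N) : Sob (E0 N) k (wd γ f J) := by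
  unfold wd wdA
  exact sob_sum S Finset.univ fun _ _ => sob_mul S (contDiffOn_const.mul (hγ _)) (hf _)

theorem sob_ib {q : ℕ} {f : Arr N (q + 1)} (hf : ∀ J, Sob (E0 N) k (f J))
    (J : Fin q → Fin N) : Sob (E0 N) k (ib f J) := by
  unfold ib ibA
  exact sob_sum S Finset.univ fun _ _ => sob_mul S (smooth_conj _).contDiffOn (hf _)

end sob

theorem hb_alt {U : Set (E N)} {m : ℤ} {q : ℕ} {f : Arr N q} (h : HB U m f) {z : E N}
    (hz : z ∈ U) : altA fun J => f J z := fun J σ => h.alt J σ z hz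

theorem hb_hor {U : Set (E N)} {m : ℤ} {q : ℕ} {f : Arr N q} (h : HB U m f) {z : E N}
    (hz : z ∈ U) : horA (fun l => conj (z l)) fun J => f J z := fun J a => h.hor J a z hz

/-! ### The solution once the form is closed and has no residue -/

theorem solve (L : Lv1) (q k : ℕ) (m : ℤ) (f : Arr N (q + 1)) (hf : HB (E0 N) m f)
    (hs : ∀ J, Sob (E0 N) k (f J)) (h1 : -(2 * N : ℤ) < m - (q + 1 : ℕ))
    (h2 : m - (q + 1 : ℕ) < -1) (hc : DB (E0 N) f 0) (κ : ℝ → ℝ) (hκ : Kap κ) (hF : Flux κ f) :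
    ∃ u : Arr N q, HB (E0 N) m u ∧ (∀ J, Sob (E0 N) k (u J)) ∧ DB (E0 N) u f := by
  obtain ⟨yh, ya, yd⟩ := L.new N q m f hf.hom
  have fl : ∀ J, L2 (E0 N) (f J) := fun J => sob_l2 L.sb (hs J)
  replace ya := ya fun z hz => hb_alt hf hz
  replace yd := yd κ hκ fl h1 h2 hc hF
  have ys : ∀ J, Sob (E0 N) k (Nw f J) := fun J =>
    sob_sum L.sb Finset.univ fun j _ => L.ec N k j _ (hs _)
      ((L.t3.2 N).2.1 m (-(q + 1 : ℕ)) _ (fl _) (hf.hom _) (by linarith) (by linarith))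
  have yl : ∀ J, L2 (E0 N) (Nw f J) := fun J => sob_l2 L.sb (ys J)
  have F := L.frm N q (E0 N) isOpen_E0 zero_notMem_E0
  have wd1 := ((F.1 _ _ yd).2.2.2 yl fl).2.2
  have wh : ∀ J, Hom (E0 N) m (-(q + 1 : ℕ)) (wd thb (Nw f) J) :=
    hom_wd hom_thb yh (by ring) (by push_cast; ring)
  have ws : ∀ J, Sob (E0 N) k (wd thb (Nw f) J) := sob_wd L.sb smooth_thb ys
  have wa : ∀ z : E N, altA fun J => wd thb (Nw f) J z := fun z =>
    ((L.al1 N q 0 (fun j => thb j z)).1 _).1 (ya z)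
  have ud := F.2.2.2 m _ _ cone_E0 wd1 (fun J => ⟨sob_l2 L.sb (ws J), wh J⟩)
    (fun J => sob_l2 L.sb (sob_neg L.sb (sob_wd L.sb smooth_thb hs J))) fun z _ => wa z
  refine ⟨ib (wd thb (Nw f)), ⟨hom_ib wh (by push_cast; ring), fun J σ z _ => ?_,
    fun J a z _ => ?_⟩, sob_ib L.sb ws, ?_⟩
  · exact ((L.al1 N q (fun l => conj (z l)) 0).2 _ (wa z)).1 J σ
  · exact ((L.al1 N q (fun l => conj (z l)) 0).2 _ (wa z)).2.1 J a
  · refine (F.1 _ _ ud).1 _ _ (fun J => ae_of_all _ fun _ _ => rfl)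
      fun J => ae_of_all _ fun z hz => ?_
    have := ((L.al1 N (q + 1) (fun l => conj (z l)) (fun j => thb j z)).1 _).2.1 (hb_hor hf hz) J
    rw [sum_thb hz, one_mul] at this
    rw [← this]
    simp only [ib, ibA, wd, mul_neg, Finset.sum_neg_distrib, neg_neg]

/-! ### Forms of degree `N - 1` -/

section top
variable {n : ℕ}

/-- `∑ z_l X_l`, with `X_l` the components of the dual vector. -/
def Sx (f : Arr (n + 1) n) (z : E (n + 1)) : ℂ :=
  ∑ l : Fin (n + 1), z l * ((-1) ^ (l : ℕ) * f l.succAbove z)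

theorem hom_Sx {m : ℤ} {f : Arr (n + 1) n} (hf : HB (E0 _) m f) :
    Hom (E0 _) (m + 1) (-n) (Sx f) :=
  hom_sum Finset.univ fun l _ => hom_mul (hom_coord l)
    (hom_mul (hom_const _) (hf.hom _) (zero_add _).symm (zero_add _).symm) (by ring) (by ring)

theorem sob_Sx (S : StmtSB) {k : ℕ} {f : Arr (n + 1) n} (hf : ∀ J, Sob (E0 _) k (f J)) :
    Sob (E0 _) k (Sx f) :=
  sob_sum S Finset.univ fun l _ => sob_mul S (contDiff_coord l).contDiffOn
    (sob_mul S contDiffOn_const (hf _))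

theorem closed (L : Lv1) {m : ℤ} {f : Arr (n + 1) n} (hf : HB (E0 _) m f)
    (hs : ∀ J, L2 (E0 _) (f J)) : DB (E0 _) f 0 := by
  intro J ψ hψ
  set Θ : E (n + 1) → ℂ := fun z => ((‖z‖ ^ 2 : ℝ) : ℂ)⁻¹ * Sx f z with hΘ
  have hh : Hom (E0 _) m (-(n + 1 : ℕ)) Θ :=
    hom_mul hom_inv (hom_Sx hf) (by ring) (by push_cast; ring)
  have hl : L2 (E0 _) Θ := sob_mul L.sb (k := 0) smooth_inv (sob_Sx L.sb (k := 0) hs)
  have T := (L.t2 (n + 1) m (-(n + 1 : ℕ))).1 _ isOpen_E0 cone_E0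
  have key := T.2.2.2.1 Θ hl (T.1 Θ hh) ψ hψ
  have e : ∀ z ∈ E0 (n + 1),
      ∑ i : Fin (n + 1), (-1) ^ (i : ℕ) * f (i.removeNth J) z * dzb (J i) ψ z =
        eps J * (Θ z * ∑ j, conj (z j) * dzb j ψ z) := by
    intro z hz
    have A := (L.al2 n).1 _ (hb_alt hf hz)
    have h1 := A.1 (fun j => dzb j ψ z) J
    have h2 := A.2 _ (hb_hor hf hz)
    have hX : ∀ l : Fin (n + 1), (-1) ^ (l : ℕ) * f l.succAbove z = conj (z l) * Θ z := by
      intro l
      have hn := normSq_ne hz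
      simp only [hΘ, Sx]
      rw [← mul_assoc, mul_comm (conj (z l)), mul_assoc, eq_inv_mul_iff_mul_eq₀ hn, norm_sq_eq,
        Finset.sum_mul, Finset.mul_sum]
      refine Finset.sum_congr rfl fun j _ => ?_
      have := h2 j l
      linear_combination z j * this
    simp only [hX] at h1
    rw [Finset.mul_sum]
    refine Eq.trans ?_ (h1.trans ?_)
    · exact Finset.sum_congr rfl fun i _ => by ring
    · congr 1
      exact Finset.sum_congr rfl fun i _ => by ring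
  rw [setIntegral_congr_fun isOpen_E0.measurableSet e, integral_const_mul, key]
  simp

theorem flux (L : Lv1) {m : ℤ} {f : Arr (n + 1) n} (hf : HB (E0 _) m f) {κ : ℝ → ℝ}
    (hκ : Kap κ) (h0 : ∫ z : E (n + 1), (κ (‖z‖ ^ 2) : ℂ) * Sx f z = 0) : Flux κ f := by
  intro J
  have e : ∀ z : E (n + 1), (κ (‖z‖ ^ 2) : ℂ) * wd (fun j z => z j) f J z =
      eps J * ((κ (‖z‖ ^ 2) : ℂ) * Sx f z) := by
    intro z
    by_cases hz : z = 0
    · have : κ (‖z‖ ^ 2) = 0 := by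
        by_contra h
        have := (hκ.supp _ h).1
        rw [hz] at this
        norm_num at this
      simp [this]
    · have h1 := ((L.al2 n).1 _ (hb_alt hf hz)).1 (fun j => z j) J
      simp only [wd, h1, Sx]
      ring
  simp only [e, integral_const_mul, h0, mul_zero]

theorem alt_eps : altA (eps (N := N)) := by
  intro J σ
  simp only [eps]
  exact Matrix.det_permute σ (Matrix.of fun a b => if J a = b then (1 : ℂ) else 0)

/-- The real density of the correction. -/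
def bR (ρ : E N → ℝ) (z : E N) : ℝ := expNegInvGlue (ρ z) * ((‖z‖ ^ 2)⁻¹) ^ N

/-- The correction. -/
def gC (ρ : E (n + 1) → ℝ) (c : ℂ) : Arr (n + 1) n := fun J z =>
  c * (bR ρ z : ℂ) * ibA (fun l => conj (z l)) eps J

theorem bR_eq (ρ : E N → ℝ) (z : E N) :
    (bR ρ z : ℂ) = (expNegInvGlue (ρ z) : ℂ) * ((‖z‖ ^ 2 : ℝ) : ℂ)⁻¹ ^ N := by
  simp only [bR]
  push_cast
  rfl

theorem smooth_bR {ρ : E N → ℝ} (hρ : Dom ρ) :
    ContDiffOn ℝ ∞ (fun z => (bR ρ z : ℂ)) (E0 N) := by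
  simp only [bR_eq]
  exact (ofRealCLM.contDiff.comp_contDiffOn
    (expNegInvGlue.contDiff.comp_contDiffOn hρ.smooth)).mul (smooth_inv.pow N)

theorem hom_bR {ρ : E N → ℝ} (hρ : Dom ρ) : Hom (E0 N) (-N) (-N) fun z => (bR ρ z : ℂ) := by
  simp only [bR_eq]
  have h1 : Hom (E0 N) 0 0 fun z => (expNegInvGlue (ρ z) : ℂ) := by
    intro c hc z _
    simp [hρ.inv c hc]
  exact hom_mul h1 (hom_pow hom_inv N) (by ring) (by ring)

theorem hb_gC (L : Lv1) {ρ : E (n + 1) → ℝ} (hρ : Dom ρ) (c : ℂ) :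
    HB (E0 _) (-(n + 1 : ℕ)) (gC ρ c) := by
  refine ⟨fun J => ?_, fun J σ z _ => ?_, fun J a z _ => ?_⟩
  · refine hom_mul (hom_mul (hom_const c) (hom_bR hρ) (zero_add _).symm (zero_add _).symm)
      (a' := 0) (b' := 1) ?_ (by ring) (by push_cast; ring)
    exact hom_sum Finset.univ fun l _ => hom_mul (hom_conj l) (hom_const _) (by ring) (by ring)
  · have := ((L.al1 (n + 1) n (fun l => conj (z l)) 0).2 _ alt_eps).1 J σ
    simp only [gC, this]
    ring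
  · have := ((L.al1 (n + 1) n (fun l => conj (z l)) 0).2 _ alt_eps).2.1 J a
    simp only [gC]
    rw [← mul_zero (c * (bR ρ z : ℂ)), ← this, Finset.mul_sum]
    exact Finset.sum_congr rfl fun l _ => by ring

theorem smooth_gC {ρ : E (n + 1) → ℝ} (hρ : Dom ρ) (c : ℂ) (J : Fin n → Fin (n + 1)) :
    ContDiffOn ℝ ∞ (gC ρ c J) (E0 _) :=
  (contDiffOn_const.mul (smooth_bR hρ)).mul
    (ContDiffOn.sum fun l _ => (smooth_conj l).contDiffOn.mul contDiffOn_const)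

theorem Sx_gC (L : Lv1) (ρ : E (n + 1) → ℝ) (c : ℂ) (z : E (n + 1)) :
    Sx (gC ρ c) z = c * ((bR ρ z : ℂ) * ((‖z‖ ^ 2 : ℝ) : ℂ)) := by
  have := ((L.al2 n).2 fun l => conj (z l)).2
  simp only [Sx, gC, ibA]
  rw [norm_sq_eq, Finset.mul_sum, Finset.mul_sum]
  refine Finset.sum_congr rfl fun l _ => ?_
  linear_combination (c * bR ρ z * z l) * this l

theorem mass_ne (L : Lv1) {ρ : E N → ℝ} (hρ : Dom ρ) {κ : ℝ → ℝ} (hκ : Kap κ) :
    ∫ z : E N, (κ (‖z‖ ^ 2) : ℂ) * ((bR ρ z : ℂ) * ((‖z‖ ^ 2 : ℝ) : ℂ)) ≠ 0 := by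
  have hT := ((L.t3.2 N).1 κ hκ).1
  have h1 := ((L.t1 N _ isOpen_E0 zero_notMem_E0).2.2.2.1 _ hT).1 _
    ((smooth_bR hρ).mul smooth_normSq.contDiffOn)
  set r : E N → ℝ := fun z => bR ρ z * ‖z‖ ^ 2 * κ (‖z‖ ^ 2) with hr
  have e : (fun z : E N => (bR ρ z : ℂ) * ((‖z‖ ^ 2 : ℝ) : ℂ) * (κ (‖z‖ ^ 2) : ℂ)) =
      fun z => (r z : ℂ) := by
    funext z
    simp only [hr]
    push_cast
    rfl
  rw [e] at h1
  have hc : Continuous r := continuous_re.comp h1.1.continuous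
  have hk : HasCompactSupport r := h1.2.1.comp_left (g := Complex.re) rfl
  have hn : 0 ≤ r := fun z =>
    mul_nonneg (mul_nonneg (mul_nonneg (expNegInvGlue.nonneg _) (by positivity)) (by positivity))
      (hκ.nonneg _)
  obtain ⟨z₀, hz₀, hp⟩ := hρ.proper
  have hz : 0 < ‖z₀‖ := norm_pos_iff.2 hz₀
  set c : ℝ := 3 / 2 / ‖z₀‖ with hc'
  have hcp : 0 < c := by positivity
  have hnorm : ‖(c : ℂ) • z₀‖ = 3 / 2 := by
    rw [norm_smul, Complex.norm_real, Real.norm_of_nonneg hcp.le, hc']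
    field_simp
  have hne : r ((c : ℂ) • z₀) ≠ 0 := by
    simp only [hr, bR, hnorm, hρ.inv _ (ofReal_ne_zero.2 hcp.ne')]
    have := expNegInvGlue.pos_of_pos hp
    have := hκ.pos ((3 / 2) ^ 2) (by norm_num) (by norm_num)
    positivity
  have hpos := hc.integral_pos_of_hasCompactSupport_nonneg_nonzero (μ := volume) hk hn hne
  have e' : ∀ z : E N, (κ (‖z‖ ^ 2) : ℂ) * ((bR ρ z : ℂ) * ((‖z‖ ^ 2 : ℝ) : ℂ)) = (r z : ℂ) :=
    fun z => (mul_comm _ _).trans (congrFun e z)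
  simp only [e', integral_complex_ofReal]
  exact ofReal_ne_zero.2 hpos.ne'

theorem int_kap (L : Lv1) {κ : ℝ → ℝ} (hκ : Kap κ) {g : E N → ℂ} (hg : L2 (E0 N) g) :
    Integrable fun z : E N => (κ (‖z‖ ^ 2) : ℂ) * g z := by
  have hT := ((L.t3.2 N).1 κ hκ).1
  have := (((L.t1 N _ isOpen_E0 zero_notMem_E0).1 g hg).2.2.1 _ hT.1.continuous hT.2.1 hT.2.2).1
  simpa only [mul_comm] using this

/-- The form can be changed off the domain so that its residue vanishes. -/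
theorem correct (L : Lv1) {ρ : E (n + 1) → ℝ} (hρ : Dom ρ) {k : ℕ} {m : ℤ} {f : Arr (n + 1) n}
    (hf : HB (E0 _) m f) (hs : ∀ J, Sob (E0 _) k (f J)) {κ : ℝ → ℝ} (hκ : Kap κ) :
    ∃ g : Arr (n + 1) n, HB (E0 _) m g ∧ (∀ J, Sob (E0 _) k (g J)) ∧ Flux κ g ∧
      ∀ J, ∀ z ∈ Om ρ, g J z = f J z := by
  by_cases hm : m = -(n + 1 : ℕ)
  swap
  · refine ⟨f, hf, hs, flux L hf hκ ?_, fun _ _ _ => rfl⟩
    refine (L.t2 (n + 1) (m + 1) (-n)).2 _ κ (Or.inr (Nat.le_add_left 1 n))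
      (((L.t2 (n + 1) (m + 1) (-n)).1 _ isOpen_E0 cone_E0).1 _ (hom_Sx hf)) fun h => hm ?_
    push_cast
    linarith
  subst hm
  have hM := mass_ne L hρ hκ
  set M := ∫ z : E (n + 1), (κ (‖z‖ ^ 2) : ℂ) * ((bR ρ z : ℂ) * ((‖z‖ ^ 2 : ℝ) : ℂ)) with hMe
  set c : ℂ := (∫ z : E (n + 1), (κ (‖z‖ ^ 2) : ℂ) * Sx f z) / M with hc
  have hg := hb_gC L hρ c
  have hb : HB (E0 _) (-(n + 1 : ℕ)) fun J z => f J z - gC ρ c J z := by
    refine ⟨fun J => hom_sub (hf.hom J) (hg.hom J), fun J σ z hz => ?_, fun J a z hz => ?_⟩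
    · simp only [hf.alt J σ z hz, hg.alt J σ z hz]
      ring
    · simp only [mul_sub, Finset.sum_sub_distrib, hf.hor J a z hz, hg.hor J a z hz, sub_zero]
  refine ⟨_, hb, fun J => sob_sub L.sb (hs J) (sob_smooth L.sb (smooth_gC hρ c J)),
    flux L hb hκ ?_, fun J z hz => ?_⟩
  · have e : ∀ z : E (n + 1), (κ (‖z‖ ^ 2) : ℂ) * Sx (fun J z => f J z - gC ρ c J z) z =
        (κ (‖z‖ ^ 2) : ℂ) * Sx f z -
          c * ((κ (‖z‖ ^ 2) : ℂ) * ((bR ρ z : ℂ) * ((‖z‖ ^ 2 : ℝ) : ℂ))) := by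
      intro z
      have h1 : Sx (fun J z => f J z - gC ρ c J z) z = Sx f z - Sx (gC ρ c) z := by
        simp only [Sx, mul_sub, Finset.sum_sub_distrib]
      rw [h1, Sx_gC L]
      ring
    simp only [e]
    rw [integral_sub (int_kap L hκ (sob_l2 L.sb (sob_Sx L.sb hs)))
      ((int_kap L hκ (sob_smooth L.sb (k := 0)
        ((smooth_bR hρ).mul smooth_normSq.contDiffOn))).const_mul c), integral_const_mul,
      ← hMe, hc, div_mul_cancel₀ _ hM, sub_self]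
  · simp [gC, bR, expNegInvGlue.zero_of_nonpos hz.2.le]

end top

theorem core (L : Lv1) (p : ℕ) (ρ : E (p + 1 + 1) → ℝ) (hρ : Dom ρ) (k : ℕ) (m : ℤ)
    (h1 : -((p + 1 + 1 : ℕ) : ℤ) ≤ m) (h2 : m ≤ -1) : LT ρ k m p := by
  intro f hf hs
  obtain ⟨κ, hκ⟩ := L.t3.1
  obtain ⟨g, hg, gs, gF, ge⟩ := correct L hρ hf hs hκ
  obtain ⟨u, hu, us, ud⟩ := solve L p k m g hg gs (by push_cast at h1 ⊢; linarith)
    (by push_cast; linarith) (closed L hg fun J => sob_l2 L.sb (gs J)) κ hκ gF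
  have ho := (L.c1 _ ρ hρ).1
  refine ⟨u, hu, us, ?_⟩
  have hd := ((L.frm _ p _ isOpen_E0 zero_notMem_E0).1 _ _ ud).2.1 _ ho fun z hz => hz.1
  exact ((L.frm _ p _ ho fun h => h.1 rfl).1 _ _ hd).1 _ _ (fun J => ae_of_all _ fun _ _ => rfl)
    fun J => ae_of_all _ fun z hz => ge J z hz

theorem lt (L : Lv1) : StmtLT := fun q ρ hρ k m h1 h2 => core L (q + 1) ρ hρ k m h1 h2

end

end Pool.Agent.MP_fcd29e_an.H67
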